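import Pool.Agent.MVK.Stmts

/-!
# Squad MVK, row KS1: case distinction for the words of SHK
-/

namespace Pool.Agent.MVK.H26

open Pool.Agent.Helper14_MV Pool.Agent.Helper2_MV Pool.Agent.MVD Pool.Agent.MVK

/-- a block in its context -/
theorem ks_split (R : List ℕ) (B : ℕ → List ℕ) (t : List ℕ) {r : ℕ} (hr : r ∈ R) :
    ∃ p q : List ℕ, Bw R B ++ t = p ++ (B r ++ q) ∧
      ∀ r' ∈ R, r' ≠ r → ∀ c ∈ B r', c ∈ p ∨ c ∈ q := by
  obtain ⟨R1, R2, rfl⟩ := List.append_of_mem hr
  refine ⟨Bw R1 B, [3 * r + 2] ++ (Bw R2 B ++ t), ?_, ?_⟩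
  · unfold Bw
    rw [List.flatMap_append, List.flatMap_cons]
    simp [List.append_assoc]
  · intro r' hr' hne c hc
    rcases List.mem_append.1 hr' with h | h
    · left
      unfold Bw
      exact List.mem_flatMap.2 ⟨r', h, List.mem_append_left _ hc⟩
    · rcases List.mem_cons.1 h with h | h
      · exact absurd h hne
      · right
        refine List.mem_append_right _ (List.mem_append_left _ ?_)
        unfold Bw
        exact List.mem_flatMap.2 ⟨r', h, List.mem_append_left _ hc⟩

/-- the first two letters 0 -/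
theorem ks_two {M : List ℕ} (h : 2 ≤ M.count 0) :
    ∃ A u C : List ℕ, M = A ++ 0 :: (u ++ 0 :: C) ∧ 0 ∉ A ∧ 0 ∉ u := by
  have first : ∀ L : List ℕ, 1 ≤ L.count 0 → ∃ A C : List ℕ, L = A ++ 0 :: C ∧ 0 ∉ A := by
    intro L
    induction L with
    | nil => intro h; simp at h
    | cons x L ih =>
      intro h
      by_cases hx : x = 0
      · subst hx
        exact ⟨[], L, rfl, by simp⟩
      · rw [List.count_cons_of_ne hx] at h
        obtain ⟨A, C, h1, h2⟩ := ih h
        refine ⟨x :: A, C, by rw [h1]; rfl, ?_⟩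
        intro h3
        rcases List.mem_cons.1 h3 with h4 | h4
        · exact hx h4.symm
        · exact h2 h4
  obtain ⟨A, L, h1, h2⟩ := first M (by omega)
  have h3 : 1 ≤ L.count 0 := by
    rw [h1, List.count_append, List.count_cons_self, List.count_eq_zero_of_not_mem h2] at h
    omega
  obtain ⟨u, C, h4, h5⟩ := first L h3
  exact ⟨A, u, C, by rw [h1, h4], h2, h5⟩

theorem ks_filter {A : List ℕ} (h : 0 ∉ A) : A.filter (fun c => decide (c ≠ 0)) = A := by
  rw [List.filter_eq_self]
  intro c hc
  have : c ≠ 0 := fun h0 => h (h0 ▸ hc)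
  simpa using this

theorem ks1 (abs : AbsStmt) (kgp : KgpStmt) : Ks1Stmt := by
  intro β hβ m hm ih P Q M D' a b f hPQ hD' hM
  by_cases hK : Kd β 0 (Wg P Q M a b f)
  · exact Or.inl hK
  right
  obtain ⟨B, hB⟩ : ∃ B : ℕ → List ℕ, B = fun r => if r = 0 then M else
    List.replicate (a r) 0 ++ ([3 * (r - 1) + 1] ++ List.replicate (b r) 0) := ⟨_, rfl⟩
  have hW : Wg P Q M a b f = Bw (Rl P Q) B ++ List.replicate f 0 := by rw [hB]; rfl
  have hB0 : B 0 = M := by rw [hB]; simp
  have hBs : ∀ e, B (e + 1) = List.replicate (a (e + 1)) 0 ++ ([3 * e + 1] ++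
      List.replicate (b (e + 1)) 0) := by
    intro e; rw [hB]; simp
  have h0R : 0 ∈ Rl P Q := by unfold Rl; simp
  have heR : ∀ e < m, e + 1 ∈ Rl P Q := by
    intro e he
    have h1 : e ∈ P ++ Q := hPQ.mem_iff.2 (List.mem_range.2 he)
    unfold Rl
    rcases List.mem_append.1 h1 with h | h
    · exact List.mem_append_left _ (List.mem_map.2 ⟨e, h, rfl⟩)
    · exact List.mem_append_right _ (List.mem_cons_of_mem _ (List.mem_map.2 ⟨e, h, rfl⟩))
  -- no two adjacent letters 0 in a block
  have adj : ∀ r ∈ Rl P Q, ∀ x y : List ℕ, B r ≠ x ++ 0 :: 0 :: y := by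
    intro r hr x y hxy
    obtain ⟨p, q, h1, -⟩ := ks_split (Rl P Q) B (List.replicate f 0) hr
    apply hK
    rw [hW, h1, hxy]
    have e : p ++ (x ++ 0 :: 0 :: y ++ q) = (p ++ x) ++ 0 :: 0 :: (y ++ q) := by
      simp [List.append_assoc]
    rw [e]
    exact (abs β).1 hβ _ _ _
  -- no letter 0 goes around a short chain in a block
  have cha : ∀ r ∈ Rl P Q, ∀ x u y : List ℕ, B r = x ++ 0 :: (u ++ 0 :: y) → u.Nodup → 0 ∉ u →
      u.length < m → (∀ c ∈ u, ∃ r' ∈ Rl P Q, r' ≠ r ∧ c ∈ B r') → False := by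
    intro r hr x u y hxy hnd h0 hlen hu
    obtain ⟨p, q, h1, h2⟩ := ks_split (Rl P Q) B (List.replicate f 0) hr
    apply hK
    rw [hW, h1, hxy]
    have e : p ++ (x ++ 0 :: (u ++ 0 :: y) ++ q) = (p ++ x) ++ 0 :: (u ++ 0 :: (y ++ q)) := by
      simp [List.append_assoc]
    rw [e]
    apply kgp β hβ m ih _ _ _ _ hnd h0 hlen
    intro c hc
    obtain ⟨r', hr', hne, hcr⟩ := hu c hc
    rcases h2 r' hr' hne c hcr with h | h
    · exact Or.inl (List.mem_append_left _ h)
    · exact Or.inr (List.mem_append_right _ h)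
  -- the letters of the main block
  have hzM : ∀ e < m, 3 * e + 1 ∈ M := by
    intro e he
    have h1 : e ∈ D' := hD'.mem_iff.2 (List.mem_range.2 he)
    have h2 : 3 * e + 1 ∈ zs D' := List.mem_map.2 ⟨e, h1, rfl⟩
    rw [← hM] at h2
    exact (List.mem_filter.1 h2).1
  have hzB : ∀ c ∈ zs D', ∃ r' ∈ Rl P Q, r' ≠ 0 ∧ c ∈ B r' := by
    intro c hc
    obtain ⟨e, he, rfl⟩ := List.mem_map.1 hc
    have he' : e < m := List.mem_range.1 (hD'.mem_iff.1 he)
    refine ⟨e + 1, heR e he', by omega, ?_⟩
    rw [hBs]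
    simp
  have hznd : (zs D').Nodup := by
    apply List.Nodup.map
    · intro x y hxy
      have : 3 * x + 1 = 3 * y + 1 := hxy
      omega
    · exact hD'.nodup_iff.2 List.nodup_range
  have hzlen : (zs D').length = m := by
    unfold zs
    rw [List.length_map, hD'.length_eq, List.length_range]
  refine ⟨?_, ?_, ?_, ?_⟩
  · by_contra hcon
    push Not at hcon
    obtain ⟨hc2, hne⟩ := hcon
    obtain ⟨A, u, C, hMe, hA, hu⟩ := ks_two (M := M) (by omega)
    have hf : zs D' = A ++ (u ++ C.filter (fun c => decide (c ≠ 0))) := by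
      rw [← hM, hMe, List.filter_append, List.filter_cons_of_neg (by simp), List.filter_append,
        List.filter_cons_of_neg (by simp), ks_filter hA, ks_filter hu]
    have hund : u.Nodup := by
      rw [hf] at hznd
      exact (List.nodup_append.1 (List.nodup_append.1 hznd).2.1).1
    have hlen : A.length + (u.length + (C.filter (fun c => decide (c ≠ 0))).length) = m := by
      rw [← hzlen, hf, List.length_append, List.length_append]
    by_cases hul : u.length < m
    · refine cha 0 h0R A u C (by rw [hB0, hMe]) hund hu hul ?_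
      intro c hc
      refine hzB c ?_
      rw [hf]
      exact List.mem_append_right _ (List.mem_append_left _ hc)
    · have hA0 : A = [] := List.length_eq_zero_iff.1 (by omega)
      have hC0 : C.filter (fun c => decide (c ≠ 0)) = [] := List.length_eq_zero_iff.1 (by omega)
      have hu2 : u = zs D' := by rw [hf, hA0, hC0]; simp
      rcases C with _ | ⟨c, C⟩
      · apply hne
        rw [hMe, hA0, hu2]
        rfl
      · have hc0 : c = 0 := by
          by_contra hcne
          rw [List.filter_cons_of_pos (by simpa using hcne)] at hC0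
          exact absurd hC0 (List.cons_ne_nil _ _)
        subst hc0
        refine adj 0 h0R (A ++ 0 :: u) C ?_
        rw [hB0, hMe]
        simp [List.append_assoc]
  · by_contra hcon
    obtain ⟨f', hf'⟩ : ∃ f', f = f' + 2 := ⟨f - 2, by omega⟩
    apply hK
    rw [hW, hf', List.replicate_succ, List.replicate_succ]
    exact (abs β).1 hβ _ _ _
  · intro e he
    constructor
    · by_contra hcon
      obtain ⟨k, hk⟩ : ∃ k, a (e + 1) = k + 2 := ⟨a (e + 1) - 2, by omega⟩
      refine adj (e + 1) (heR e he) [] (List.replicate k 0 ++ ([3 * e + 1] ++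
        List.replicate (b (e + 1)) 0)) ?_
      rw [hBs, hk, List.replicate_succ, List.replicate_succ]
      rfl
    · by_contra hcon
      obtain ⟨k, hk⟩ : ∃ k, b (e + 1) = k + 2 := ⟨b (e + 1) - 2, by omega⟩
      refine adj (e + 1) (heR e he) (List.replicate (a (e + 1)) 0 ++ [3 * e + 1])
        (List.replicate k 0) ?_
      rw [hBs, hk, List.replicate_succ, List.replicate_succ]
      simp [List.append_assoc]
  · intro hm2 e he
    by_contra hcon
    -- both are at least one
    have hab : 1 ≤ a (e + 1) ∧ 1 ≤ b (e + 1) := by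
      constructor
      · by_contra h0
        have h1 : a (e + 1) = 0 := by omega
        obtain ⟨k, hk⟩ : ∃ k, b (e + 1) = k + 2 := ⟨b (e + 1) - 2, by omega⟩
        refine adj (e + 1) (heR e he) (List.replicate (a (e + 1)) 0 ++ [3 * e + 1])
          (List.replicate k 0) ?_
        rw [hBs, hk, List.replicate_succ, List.replicate_succ]
        simp [List.append_assoc]
      · by_contra h0
        have h1 : b (e + 1) = 0 := by omega
        obtain ⟨k, hk⟩ : ∃ k, a (e + 1) = k + 2 := ⟨a (e + 1) - 2, by omega⟩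
        refine adj (e + 1) (heR e he) [] (List.replicate k 0 ++ ([3 * e + 1] ++
          List.replicate (b (e + 1)) 0)) ?_
        rw [hBs, hk, List.replicate_succ, List.replicate_succ]
        rfl
    obtain ⟨i, hi⟩ : ∃ i, a (e + 1) = i + 1 := ⟨a (e + 1) - 1, by omega⟩
    obtain ⟨j, hj⟩ : ∃ j, b (e + 1) = j + 1 := ⟨b (e + 1) - 1, by omega⟩
    refine cha (e + 1) (heR e he) (List.replicate i 0) [3 * e + 1] (List.replicate j 0) ?_
      (by simp) (by simp) (by rw [List.length_singleton]; omega) ?_
    · rw [hBs, hi, hj, List.replicate_succ', List.replicate_succ]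
      simp [List.append_assoc]
    · intro c hc
      have hc' : c = 3 * e + 1 := by simpa using hc
      refine ⟨0, h0R, by omega, ?_⟩
      rw [hB0, hc']
      exact hzM e he

end Pool.Agent.MVK.H26
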